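import Pool.Agent.Lib.H4VanCyc

/-!
MP_178164_nt: vanishing at 1 forces vanishing of class sums modulo small primes, and the
consequences for polynomials with a sparse multiple modulo an integer.
-/

set_option autoImplicit false

namespace RunVan77

open Polynomial Pool.Agent.H4Van

/-- The norm of `X - 1` at the primitive `q`-th roots of unity, `q` prime. -/
theorem nrm_X_sub_one {q : ℕ} (hq : q.Prime) : nrm q (X - 1) = q := by
  have hn : NeZero q := ⟨hq.ne_zero⟩
  have hF : Fact q.Prime := ⟨hq⟩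
  have h1 : cyclotomic q ℂ = ∏ z ∈ primitiveRoots q ℂ, (X - C z) :=
    cyclotomic_eq_prod_X_sub_primitiveRoots (Complex.isPrimitiveRoot_exp q hq.ne_zero)
  have h2 : (cyclotomic q ℂ).eval 1 = q := eval_one_cyclotomic_prime
  rw [h1, eval_prod] at h2
  have h3 := congrArg norm h2
  rw [norm_prod] at h3
  rw [nrm]
  calc ∏ z ∈ primitiveRoots q ℂ, ‖aeval z (X - 1 : ℤ[X])‖
      = ∏ z ∈ primitiveRoots q ℂ, ‖eval 1 (X - C z : ℂ[X])‖ := by
        apply Finset.prod_congr rfl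
        intro z _
        simp only [map_sub, aeval_X, map_one, eval_sub, eval_X, eval_C]
        rw [norm_sub_rev]
    _ = q := by rw [h3]; simp

/-- Values on the unit circle. -/
theorem norm_aeval_le {P : ℤ[X]} {n : ℕ} (hn : P.natDegree ≤ n) (hc : ∀ i, |P.coeff i| ≤ 1)
    {z : ℂ} (hz : ‖z‖ = 1) : ‖aeval z P‖ ≤ n + 1 := by
  rw [aeval_eq_sum_range' (Nat.lt_succ_of_le hn)]
  refine (norm_sum_le _ _).trans ?_
  calc ∑ i ∈ Finset.range (n + 1), ‖P.coeff i • z ^ i‖ ≤ ∑ i ∈ Finset.range (n + 1), (1 : ℝ) := by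
        apply Finset.sum_le_sum
        intro i _
        rw [zsmul_eq_mul, norm_mul, norm_pow, hz, one_pow, mul_one]
        have h1 : ‖((P.coeff i : ℤ) : ℂ)‖ = |((P.coeff i : ℤ) : ℝ)| := by simp
        rw [h1]
        exact_mod_cast hc i
    _ = n + 1 := by simp

/-- The norm inequality. -/
theorem prime_pow_le {P : ℤ[X]} {n k q : ℕ} (hn : P.natDegree ≤ n)
    (hc : ∀ i, |P.coeff i| ≤ 1) (hk : (X - 1) ^ k ∣ P) (hq : q.Prime)
    (hnd : ¬ cyclotomic q ℤ ∣ P) : (q : ℝ) ^ k ≤ ((n : ℝ) + 1) ^ (q - 1) := by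
  obtain ⟨R, hR⟩ := hk
  have hndR : ¬ cyclotomic q ℤ ∣ R := fun h => hnd (hR ▸ h.mul_left _)
  have h1 : nrm q P = (q : ℝ) ^ k * nrm q R := by
    rw [hR, nrm_mul, nrm_pow, nrm_X_sub_one hq]
  have h2 : 1 ≤ nrm q R := one_le_nrm hq.pos hndR
  have h3 : nrm q P ≤ ((n : ℝ) + 1) ^ (q - 1) := by
    have : (primitiveRoots q ℂ).card = q - 1 := by rw [card_prim hq.pos, Nat.totient_prime hq]
    rw [← this, nrm]
    calc ∏ z ∈ primitiveRoots q ℂ, ‖aeval z P‖ ≤ ∏ z ∈ primitiveRoots q ℂ, ((n : ℝ) + 1) := by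
          apply Finset.prod_le_prod (fun _ _ => norm_nonneg _)
          intro z hz
          rw [mem_primitiveRoots hq.pos] at hz
          exact norm_aeval_le hn hc (hz.norm'_eq_one hq.ne_zero)
      _ = _ := by rw [Finset.prod_const]
  rw [h1] at h3
  have h4 : (0 : ℝ) ≤ (q : ℝ) ^ k := by positivity
  nlinarith

/-- Class sums of a multiple of `X ^ q - 1` vanish. -/
theorem class_sum_eq_zero {S : ℤ[X]} {q : ℕ} (h : (X ^ q - 1) ∣ S) (r : ZMod q) :
    ∑ i ∈ S.support.filter (fun i => ((i : ℕ) : ZMod q) = r), S.coeff i = 0 := by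
  classical
  let φ : ℤ[X] →ₐ[ℤ] AddMonoidAlgebra ℤ (ZMod q) :=
    aeval (AddMonoidAlgebra.single (1 : ZMod q) (1 : ℤ))
  have hX : φ (X ^ q - 1) = 0 := by
    simp only [φ, map_sub, map_pow, aeval_X, map_one]
    rw [AddMonoidAlgebra.single_pow, one_pow, nsmul_one, ZMod.natCast_self]
    rw [AddMonoidAlgebra.one_def, sub_self]
  have hS : φ S = 0 := by
    obtain ⟨R, rfl⟩ := h
    rw [map_mul, hX, zero_mul]
  have h2 : φ S = ∑ i ∈ S.support, AddMonoidAlgebra.single ((i : ℕ) : ZMod q) (S.coeff i) := by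
    simp only [φ]
    rw [aeval_def, eval₂_eq_sum, Polynomial.sum]
    apply Finset.sum_congr rfl
    intro i _
    rw [AddMonoidAlgebra.single_pow, one_pow, nsmul_one]
    rw [← Algebra.smul_def, AddMonoidAlgebra.smul_single]
    simp
  rw [hS] at h2
  have h3 := congrArg (fun f : AddMonoidAlgebra ℤ (ZMod q) => f.coeff r) h2
  simp only [AddMonoidAlgebra.coeff_sum, AddMonoidAlgebra.coeff_single,
    AddMonoidAlgebra.coeff_zero, Finsupp.coe_zero, Pi.zero_apply, Finsupp.coe_finsetSum,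
    Finset.sum_apply, Finsupp.single_apply] at h3
  rw [Finset.sum_filter, ← h3]

end RunVan77
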