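import Pool.Agent.RunVan77.Main

/-!
MP_178164_nt: final bounds, for sparse multiples and for the number of runs of the support.
-/

set_option autoImplicit false

namespace RunVan77

open Polynomial Pool.Agent.H4Van

theorem one_lt_log {n : ℕ} (hn : 3 ≤ n) : 1 < Real.log n := by
  have h3 : (3 : ℝ) ≤ n := by exact_mod_cast hn
  rw [Real.lt_log_iff_exp_lt (by linarith)]
  have := Real.exp_one_lt_d9
  linarith

/-- The general bound. -/
theorem general {n : ℕ} (hn : 3 ≤ n) {P : ℤ[X]} (hP : P.natDegree ≤ n)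
    (hc : ∀ i, |P.coeff i| ≤ 1) {k : ℕ} (hk : (X - 1) ^ k ∣ P) {D : ℤ[X]}
    (hD : D.natDegree ≤ n) {ℓ : ℕ} (ht : 1 ≤ (odds ℓ (D * P)).card) :
    (k : ℝ) ≤ 12 * 10 ^ 7 * (odds ℓ (D * P)).card * Real.log n ^ 2 /
      Real.log ((odds ℓ (D * P)).card * Real.log n) := by
  set t := (odds ℓ (D * P)).card with htd
  have ht1 : (1 : ℝ) ≤ t := by exact_mod_cast ht
  have hL := one_lt_log hn
  set L := Real.log n with hLd
  have hn3 : (3 : ℝ) ≤ n := by exact_mod_cast hn
  have htL : 1 < t * L := by nlinarith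
  have hltL : 0 < Real.log (t * L) := Real.log_pos htL
  rcases Nat.eq_zero_or_pos k with rfl | hk1
  · simp only [Nat.cast_zero]
    positivity
  have hdvd : (X - 1) ∣ P := (dvd_pow_self _ (by omega)).trans hk
  -- the range of primes
  set y : ℕ := ⌈10 ^ 7 * (t * L)⌉₊ with hy
  have hy1 : 10 ^ 7 * (t * L) ≤ y := Nat.le_ceil _
  have hy2 : (y : ℝ) ≤ 2 * 10 ^ 7 * (t * L) := by
    have := (Nat.ceil_lt_add_one (a := 10 ^ 7 * (t * L)) (by positivity)).le
    rw [hy]
    nlinarith
  have hy3 : 10 ^ 7 ≤ y := by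
    have : (10 : ℝ) ^ 7 ≤ y := by nlinarith
    exact_mod_cast this
  have hθ := theta_large hy3
  have hlog2n : Real.log ((2 * n : ℕ) : ℝ) ≤ 2 * L := by
    push_cast
    rw [Real.log_mul (by norm_num) (by linarith)]
    have : Real.log 2 ≤ L := Real.log_le_log (by norm_num) (by linarith)
    linarith
  have hN : (D * P).natDegree ≤ 2 * n := natDegree_mul_le.trans (by omega)
  obtain ⟨q, hq, hqy, hnd⟩ := exists_prime (ℓ := ℓ) (y := y) hdvd hN (Finset.card_pos.1 ht) (by
    rw [← htd]
    have h1 : ((t - 1 : ℕ) : ℝ) ≤ t := by exact_mod_cast Nat.sub_le t 1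
    calc ((t - 1 : ℕ) : ℝ) * Real.log ((2 * n : ℕ) : ℝ) ≤ t * (2 * L) := by
          apply mul_le_mul h1 hlog2n _ (by linarith)
          apply Real.log_nonneg
          push_cast
          linarith
      _ < (y : ℝ) / 10 := by nlinarith
      _ ≤ _ := hθ)
  have hpow := prime_pow_le hP hc hk hq hnd
  have hq2 : (2 : ℝ) ≤ q := by exact_mod_cast hq.two_le
  have hqy' : (q : ℝ) ≤ y := by exact_mod_cast hqy
  have hlq : 0 < Real.log q := Real.log_pos (by linarith)
  have hq1 : ((q - 1 : ℕ) : ℝ) = q - 1 := by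
    rw [Nat.cast_sub hq.one_lt.le, Nat.cast_one]
  have h1 : (k : ℝ) * Real.log q ≤ (q - 1) * Real.log ((n : ℝ) + 1) := by
    have := Real.log_le_log (by positivity) hpow
    rw [Real.log_pow, Real.log_pow, hq1] at this
    exact this
  have hln1 : Real.log ((n : ℝ) + 1) ≤ 2 * L := by
    calc Real.log ((n : ℝ) + 1) ≤ Real.log ((2 * n : ℕ) : ℝ) := by
          apply Real.log_le_log (by linarith)
          push_cast
          linarith
      _ ≤ _ := hlog2n
  have hln0 : 0 ≤ Real.log ((n : ℝ) + 1) := Real.log_nonneg (by linarith)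
  have h2 : (k : ℝ) ≤ (q - 1) / Real.log q * Real.log ((n : ℝ) + 1) := by
    rw [div_mul_eq_mul_div, le_div_iff₀ hlq]
    exact h1
  have h3 := div_log_le hq2 hqy'
  have hly : Real.log (t * L) ≤ Real.log y := Real.log_le_log (by linarith) (by nlinarith)
  have h4 : 3 * (y : ℝ) / Real.log y ≤ 6 * 10 ^ 7 * (t * L) / Real.log (t * L) := by
    apply div_le_div₀ (by positivity) _ hltL hly
    linarith
  calc (k : ℝ) ≤ (q - 1) / Real.log q * Real.log ((n : ℝ) + 1) := h2
    _ ≤ (6 * 10 ^ 7 * (t * L) / Real.log (t * L)) * (2 * L) := by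
        apply mul_le_mul (h3.trans h4) hln1 hln0 (by positivity)
    _ = 12 * 10 ^ 7 * t * L ^ 2 / Real.log (t * L) := by ring

/-- The number of maximal runs of consecutive integers in a finite set of natural numbers. -/
def runs (s : Finset ℕ) : ℕ := (s.filter (fun i => i = 0 ∨ i - 1 ∉ s)).card

theorem runs_pos {s : Finset ℕ} (h : s.Nonempty) : 1 ≤ runs s := by
  rw [runs, Nat.one_le_iff_ne_zero, ← Nat.pos_iff_ne_zero, Finset.card_pos]
  refine ⟨s.min' h, ?_⟩
  rw [Finset.mem_filter]
  refine ⟨s.min'_mem h, ?_⟩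
  by_cases h0 : s.min' h = 0
  · exact Or.inl h0
  · right
    intro h1
    have := s.min'_le _ h1
    omega

theorem card_ends (s : Finset ℕ) : (s.filter (fun i => i + 1 ∉ s)).card = runs s := by
  have h1 := Finset.card_filter_add_card_filter_not (s := s) (fun i => i + 1 ∉ s)
  have h2 := Finset.card_filter_add_card_filter_not (s := s) (fun i => i = 0 ∨ i - 1 ∉ s)
  have h3 : (s.filter (fun i => ¬ (i + 1 ∉ s))).card =
      (s.filter (fun i => ¬ (i = 0 ∨ i - 1 ∉ s))).card := by
    apply Finset.card_bij (fun i _ => i + 1)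
    · intro i hi
      rw [Finset.mem_filter] at hi ⊢
      refine ⟨not_not.1 hi.2, ?_⟩
      rintro (h | h)
      · omega
      · exact h (by simpa using hi.1)
    · intro i _ j _ h
      omega
    · intro j hj
      rw [Finset.mem_filter] at hj
      push Not at hj
      refine ⟨j - 1, ?_, by omega⟩
      rw [Finset.mem_filter]
      refine ⟨hj.2.2, ?_⟩
      have : j - 1 + 1 = j := by omega
      rw [this]
      exact not_not.2 hj.1
  unfold runs
  omega

theorem odds_eq {P : ℤ[X]} (hc : ∀ i, |P.coeff i| ≤ 1) :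
    odds 2 ((X - 1) * P) = (P.support.filter (fun i => i = 0 ∨ i - 1 ∉ P.support)) ∪
      (P.support.filter (fun i => i + 1 ∉ P.support)).image (· + 1) := by
  have hpar : ∀ i, (2 : ℤ) ∣ P.coeff i ↔ i ∉ P.support := by
    intro i
    rw [mem_support_iff, not_not]
    have := abs_le.1 (hc i)
    omega
  have hpar2 : ∀ i j, (2 : ℤ) ∣ P.coeff i - P.coeff j ↔ (i ∈ P.support ↔ j ∈ P.support) := by
    intro i j
    have h1 := abs_le.1 (hc i)
    have h2 := abs_le.1 (hc j)
    rw [mem_support_iff, mem_support_iff]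
    constructor
    · intro h
      by_cases hi : P.coeff i = 0 <;> by_cases hj : P.coeff j = 0 <;> simp [hi, hj]
      · rw [hi] at h; omega
      · rw [hj] at h; omega
    · intro h
      by_cases hi : P.coeff i = 0
      · have hj : P.coeff j = 0 := by by_contra hj; exact (h.2 hj) hi
        rw [hi, hj]; simp
      · have hj := h.1 hi
        omega
  have hodd : ∀ i, i ∈ odds 2 ((X - 1) * P) ↔ ¬ (2 : ℤ) ∣ ((X - 1) * P).coeff i := by
    intro i
    rw [odds, Finset.mem_filter, mem_support_iff]
    constructor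
    · intro h; exact_mod_cast h.2
    · intro h
      refine ⟨fun h0 => h (by rw [h0]; simp), by exact_mod_cast h⟩
  ext i
  rw [hodd, Finset.mem_union, Finset.mem_filter, Finset.mem_image]
  rw [sub_mul, one_mul, coeff_sub]
  cases i with
  | zero =>
    rw [coeff_X_mul_zero, zero_sub, dvd_neg, hpar, not_not]
    constructor
    · intro h; exact Or.inl ⟨h, Or.inl rfl⟩
    · rintro (h | ⟨j, _, h⟩)
      · exact h.1
      · omega
  | succ i =>
    rw [coeff_X_mul, hpar2]
    constructor
    · intro h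
      by_cases hi : i ∈ P.support
      · right
        have hi1 : i + 1 ∉ P.support := fun h1 => h ⟨fun _ => h1, fun _ => hi⟩
        exact ⟨i, Finset.mem_filter.2 ⟨hi, hi1⟩, rfl⟩
      · left
        have hi1 : i + 1 ∈ P.support := by
          by_contra h1
          exact h ⟨fun h2 => absurd h2 hi, fun h2 => absurd h2 h1⟩
        exact ⟨hi1, Or.inr (by simpa using hi)⟩
    · rintro (⟨h1, h2 | h2⟩ | ⟨j, hj, h⟩)
      · omega
      · intro h
        exact h2 (by simpa using h.2 h1)
      · have : j = i := by omega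
        subst this
        rw [Finset.mem_filter] at hj
        intro h
        exact hj.2 (h.1 hj.1)

theorem card_odds {P : ℤ[X]} (hc : ∀ i, |P.coeff i| ≤ 1) :
    (odds 2 ((X - 1) * P)).card = 2 * runs P.support := by
  rw [odds_eq hc, Finset.card_union_of_disjoint]
  · rw [Finset.card_image_of_injective _ (fun a b h => by simpa using h), card_ends, runs]
    ring
  · rw [Finset.disjoint_left]
    intro i hi hi2
    rw [Finset.mem_filter] at hi
    rw [Finset.mem_image] at hi2
    obtain ⟨j, hj, rfl⟩ := hi2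
    rw [Finset.mem_filter] at hj
    exact hj.2 hi.1

/-- The bound in terms of the number of runs of the support. -/
theorem runs_bound {n : ℕ} (hn : 3 ≤ n) {P : ℤ[X]} (hP0 : P ≠ 0) (hP : P.natDegree ≤ n)
    (hc : ∀ i, |P.coeff i| ≤ 1) {k : ℕ} (hk : (X - 1) ^ k ∣ P) :
    (k : ℝ) ≤ 24 * 10 ^ 7 * runs P.support * Real.log n ^ 2 /
      Real.log (runs P.support * Real.log n) := by
  have hr : 1 ≤ runs P.support := runs_pos (support_nonempty.2 hP0)
  have hr1 : (1 : ℝ) ≤ runs P.support := by exact_mod_cast hr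
  have hL := one_lt_log hn
  have hD : (X - 1 : ℤ[X]).natDegree ≤ n := by
    have : (X - 1 : ℤ[X]) = X - C 1 := by simp
    rw [this, natDegree_X_sub_C]
    omega
  have h := general hn hP hc hk hD (ℓ := 2) (by rw [card_odds hc]; omega)
  rw [card_odds hc] at h
  push_cast at h
  refine h.trans ?_
  have h1 : 1 < (runs P.support : ℝ) * Real.log n := by nlinarith
  have h2 : 0 < Real.log ((runs P.support : ℝ) * Real.log n) := Real.log_pos h1
  have h3 : Real.log ((runs P.support : ℝ) * Real.log n) ≤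
      Real.log (2 * (runs P.support : ℝ) * Real.log n) :=
    Real.log_le_log (by linarith) (by nlinarith)
  apply div_le_div₀ (by positivity) (le_of_eq (by ring)) h2 h3

end RunVan77
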