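import Pool.Agent.RunVan77.Core

/-!
MP_178164_nt: the bound for polynomials with a sparse multiple modulo an integer.
-/

set_option autoImplicit false

namespace RunVan77

open Polynomial Pool.Agent.H4Van

theorem X_pow_sub_one_dvd {P : ℤ[X]} {q : ℕ} (hq : q.Prime) (h1 : (X - 1) ∣ P)
    (h2 : cyclotomic q ℤ ∣ P) : (X ^ q - 1) ∣ P := by
  have hF : Fact q.Prime := ⟨hq⟩
  obtain ⟨R, hR⟩ := h2
  have hP1 : P.eval 1 = 0 := by
    obtain ⟨T, hT⟩ := h1
    rw [hT]; simp
  have hR1 : R.eval 1 = 0 := by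
    rw [hR, eval_mul, eval_one_cyclotomic_prime] at hP1
    rcases mul_eq_zero.1 hP1 with h | h
    · exact absurd h (by exact_mod_cast hq.ne_zero)
    · exact h
  have h3 : (X - 1) ∣ R := by
    have : (X - C (1 : ℤ)) ∣ R := dvd_iff_isRoot.2 hR1
    simpa using this
  obtain ⟨U, hU⟩ := h3
  refine ⟨U, ?_⟩
  rw [hR, hU, ← mul_assoc, cyclotomic_prime_mul_X_sub_one]

/-- The exponents with a coefficient not divisible by `ℓ`. -/
def odds (ℓ : ℕ) (S : ℤ[X]) : Finset ℕ := S.support.filter (fun i => ¬ (ℓ : ℤ) ∣ S.coeff i)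

theorem exists_partner {S : ℤ[X]} {ℓ q : ℕ} (h : (X ^ q - 1) ∣ S) {e : ℕ} (he : e ∈ odds ℓ S) :
    ∃ e' ∈ (odds ℓ S).erase e, (q : ℤ) ∣ (e' : ℤ) - e := by
  classical
  by_contra hno
  push Not at hno
  have h0 := class_sum_eq_zero h ((e : ℕ) : ZMod q)
  rw [odds, Finset.mem_filter] at he
  have hmem : e ∈ S.support.filter (fun i => ((i : ℕ) : ZMod q) = ((e : ℕ) : ZMod q)) := by
    rw [Finset.mem_filter]; exact ⟨he.1, rfl⟩
  rw [← Finset.add_sum_erase _ _ hmem] at h0
  apply he.2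
  have h1 : (ℓ : ℤ) ∣ ∑ i ∈ (S.support.filter
      (fun i => ((i : ℕ) : ZMod q) = ((e : ℕ) : ZMod q))).erase e, S.coeff i := by
    apply Finset.dvd_sum
    intro i hi
    rw [Finset.mem_erase, Finset.mem_filter] at hi
    by_contra hnd
    apply hno i
    · rw [Finset.mem_erase, odds, Finset.mem_filter]
      exact ⟨hi.1, hi.2.1, hnd⟩
    · have := hi.2.2
      rw [← ZMod.intCast_zmod_eq_zero_iff_dvd]
      push_cast
      rw [this, sub_self]
  have h2 : S.coeff e = - ∑ i ∈ (S.support.filter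
      (fun i => ((i : ℕ) : ZMod q) = ((e : ℕ) : ZMod q))).erase e, S.coeff i := by linarith
  rw [h2]
  exact (dvd_neg).2 h1

/-- If all primes up to `y` are good then `θ(y)` is small. -/
theorem theta_le {S : ℤ[X]} {ℓ N y : ℕ} (hN : S.natDegree ≤ N)
    (hne : (odds ℓ S).Nonempty) (h : ∀ q : ℕ, q.Prime → q ≤ y → (X ^ q - 1) ∣ S) :
    Chebyshev.theta y ≤ (((odds ℓ S).card - 1 : ℕ) : ℝ) * Real.log N := by
  classical
  obtain ⟨e, he⟩ := hne
  set E := (odds ℓ S).erase e with hE
  set Z : ℕ := ∏ e' ∈ E, ((e' : ℤ) - e).natAbs with hZ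
  have hle : ∀ i ∈ odds ℓ S, i ≤ N := fun i hi => by
    rw [odds, Finset.mem_filter] at hi
    exact (le_natDegree_of_mem_supp i hi.1).trans hN
  have hZ0 : Z ≠ 0 := by
    rw [hZ, Finset.prod_ne_zero_iff]
    intro i hi h0
    rw [hE, Finset.mem_erase] at hi
    apply hi.1
    have := Int.natAbs_eq_zero.1 h0
    omega
  have hZle : Z ≤ N ^ ((odds ℓ S).card - 1) := by
    have hc : E.card = (odds ℓ S).card - 1 := by rw [hE, Finset.card_erase_of_mem he]
    rw [← hc, hZ]
    apply Finset.prod_le_pow_card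
    intro i hi
    rw [hE, Finset.mem_erase] at hi
    have h1 := hle i hi.2
    have h2 := hle e he
    omega
  have hdvd : primorial y ∣ Z := by
    rw [primorial]
    apply Finset.prod_primes_dvd
    · intro p hp
      rw [Finset.mem_filter] at hp
      exact hp.2.prime
    · intro p hp
      rw [Finset.mem_filter, Finset.mem_range] at hp
      obtain ⟨e', he', hd⟩ := exists_partner (ℓ := ℓ) (h p hp.2 (by omega)) he
      have h3 : p ∣ ((e' : ℤ) - e).natAbs := Int.natCast_dvd.1 hd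
      exact h3.trans (Finset.dvd_prod_of_mem _ he')
  have h4 : primorial y ≤ N ^ ((odds ℓ S).card - 1) :=
    (Nat.le_of_dvd (Nat.pos_of_ne_zero hZ0) hdvd).trans hZle
  rw [Chebyshev.theta_eq_log_primorial, Nat.floor_natCast]
  have h5 : (0 : ℝ) < primorial y := by exact_mod_cast primorial_pos y
  calc Real.log (primorial y) ≤ Real.log ((N : ℝ) ^ ((odds ℓ S).card - 1)) := by
        apply Real.log_le_log h5
        exact_mod_cast h4
    _ = _ := by rw [Real.log_pow]

/-- A prime at which `P` does not vanish. -/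
theorem exists_prime {P D : ℤ[X]} {ℓ N y : ℕ} (h1 : (X - 1) ∣ P) (hN : (D * P).natDegree ≤ N)
    (hne : (odds ℓ (D * P)).Nonempty)
    (hy : (((odds ℓ (D * P)).card - 1 : ℕ) : ℝ) * Real.log N < Chebyshev.theta y) :
    ∃ q : ℕ, q.Prime ∧ q ≤ y ∧ ¬ cyclotomic q ℤ ∣ P := by
  by_contra hno
  push Not at hno
  refine absurd (theta_le hN hne fun q hq hqy => ?_) (not_le.2 hy)
  exact (X_pow_sub_one_dvd hq h1 (hno q hq hqy)).mul_left D

/-- `(q - 1) / log q` is at most `3 y / log y` for `2 ≤ q ≤ y`. -/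
theorem div_log_le {q y : ℝ} (hq : 2 ≤ q) (hqy : q ≤ y) :
    (q - 1) / Real.log q ≤ 3 * y / Real.log y := by
  have hy : 2 ≤ y := hq.trans hqy
  have hlq : 0 < Real.log q := Real.log_pos (by linarith)
  have hly : 0 < Real.log y := Real.log_pos (by linarith)
  have hl2 : (0.69 : ℝ) ≤ Real.log 2 := by
    have := Real.log_two_gt_d9; linarith
  rw [div_le_div_iff₀ hlq hly]
  by_cases h : q ≤ √y
  · have h1 : Real.log y ≤ 2 * √y := by
      have h2 : Real.log y = 2 * Real.log (√y) := by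
        rw [Real.log_sqrt (by linarith)]; ring
      have h3 : Real.log (√y) ≤ √y - 1 := Real.log_le_sub_one_of_pos (Real.sqrt_pos.2 (by linarith))
      rw [h2]; linarith
    have h4 : Real.log 2 ≤ Real.log q := Real.log_le_log (by norm_num) hq
    have h5 : √y * √y = y := Real.mul_self_sqrt (by linarith)
    have h6 : 0 ≤ √y := Real.sqrt_nonneg _
    calc (q - 1) * Real.log y ≤ √y * (2 * √y) := by
          apply mul_le_mul _ h1 hly.le h6
          linarith
      _ = 2 * y := by nlinarith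
      _ ≤ 3 * y * Real.log q := by nlinarith
  · push Not at h
    have h1 : Real.log y ≤ 2 * Real.log q := by
      have h2 : Real.log y = 2 * Real.log (√y) := by
        rw [Real.log_sqrt (by linarith)]; ring
      have h3 : Real.log (√y) ≤ Real.log q :=
        Real.log_le_log (Real.sqrt_pos.2 (by linarith)) h.le
      rw [h2]; linarith
    calc (q - 1) * Real.log y ≤ y * (2 * Real.log q) := by
          apply mul_le_mul _ h1 hly.le (by linarith)
          linarith
      _ ≤ 3 * y * Real.log q := by nlinarith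

/-- Chebyshev: `θ(y) ≥ y / 10` for large `y`. -/
theorem theta_large {y : ℕ} (hy : 10 ^ 7 ≤ y) : (y : ℝ) / 10 ≤ Chebyshev.theta y := by
  have h := Chebyshev.theta_ge y
  have hy' : (10 : ℝ) ^ 7 ≤ y := by exact_mod_cast hy
  set u : ℝ := √(√(y : ℝ)) with hu
  have hy0 : (0 : ℝ) ≤ y := by positivity
  have hu2 : u * u = √(y : ℝ) := Real.mul_self_sqrt (Real.sqrt_nonneg _)
  have hs2 : √(y : ℝ) * √(y : ℝ) = y := Real.mul_self_sqrt hy0
  have hu0 : 0 ≤ u := Real.sqrt_nonneg _
  have hu1 : 50 ≤ u := by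
    rw [hu]
    apply Real.le_sqrt_of_sq_le
    apply Real.le_sqrt_of_sq_le
    norm_num
    linarith
  have hu4 : (y : ℝ) = u ^ 4 := by rw [← hs2, ← hu2]; ring
  have hupos : 0 < u := by linarith
  have hlog : Real.log y ≤ 4 * u := by
    rw [hu4, Real.log_pow]
    have := Real.log_le_sub_one_of_pos hupos
    push_cast
    linarith
  have hlog1 : Real.log (y + 1) ≤ 4 * u + 1 := by
    have h1 : (y : ℝ) + 1 ≤ y * Real.exp 1 := by
      have := Real.add_one_le_exp (1 : ℝ)
      nlinarith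
    calc Real.log (y + 1) ≤ Real.log (y * Real.exp 1) := Real.log_le_log (by positivity) h1
      _ = Real.log y + 1 := by rw [Real.log_mul (by positivity) (by positivity), Real.log_exp]
      _ ≤ _ := by linarith
  have hl2 : (0.69 : ℝ) ≤ Real.log 2 := by
    have := Real.log_two_gt_d9; linarith
  have h6 : 2 * √(y : ℝ) * Real.log y ≤ 8 * u ^ 3 := by
    rw [← hu2]
    have : 2 * (u * u) * Real.log y ≤ 2 * (u * u) * (4 * u) := by gcongr
    linarith [this, show 2 * (u * u) * (4 * u) = 8 * u ^ 3 by ring]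
  have h7 : (y : ℝ) * 0.69 ≤ y * Real.log 2 := by gcongr
  have h8 : (y : ℝ) * 0.69 - (4 * u + 1) - 8 * u ^ 3 ≤ Chebyshev.theta y := by linarith
  refine le_trans ?_ h8
  have h9 : 50 * u ^ 3 ≤ (y : ℝ) := by
    rw [hu4]
    have : u ^ 4 = u * u ^ 3 := by ring
    rw [this]
    exact mul_le_mul_of_nonneg_right hu1 (by positivity)
  have h10 : u ≤ u ^ 3 := by
    have : 1 * u ≤ u ^ 2 * u := mul_le_mul_of_nonneg_right (by nlinarith) hu0
    linarith [this, show u ^ 2 * u = u ^ 3 by ring]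
  linarith

end RunVan77
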